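import Pool.Agent.TH455.MDefs
import Pool.Agent.U269.CP.Max8

set_option autoImplicit false

/-!
The correspondence packing number is at most `⌈12Δ/7⌉`.
-/

namespace Pool.Agent.Results.MP_dc7d7b_co.TwelveSevenths

open Pool.Agent.TH455 Pool.Agent.U269.CP

/-- Every finite graph `G` of maximum degree `Δ ≥ 3` has correspondence packing number at most
`⌈12Δ/7⌉ = ⌊(12Δ + 6)/7⌋`. -/
theorem result (V : Type) [Fintype V] (G : SimpleGraph V) [DecidableRel G.Adj]
    (hG : 3 ≤ G.maxDegree) :
    CorrPackable G ((12 * G.maxDegree + 6) / 7) ∧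
      mCorrPackingNumber G ≤ (12 * G.maxDegree + 6) / 7 := by
  have h : CorrPackable G ((12 * G.maxDegree + 6) / 7) := by
    intro C
    obtain ⟨φ, h1, h2⟩ := pack_all_max2 (k := (12 * G.maxDegree + 6) / 7) hG (by omega) G C.M
      C.symm C.matching
      (fun W v => by
        refine le_trans (Finset.card_le_card ?_) (G.degree_le_maxDegree v)
        intro w hw
        rw [SimpleGraph.mem_neighborFinset]
        exact (mem_nb.mp hw).2) _ Finset.univ rfl
    exact ⟨fun t v => φ v t,
      fun t u v huv => h2 u (Finset.mem_univ _) v (Finset.mem_univ _) huv t,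
      fun v s t hst he => hst (h1 v (Finset.mem_univ _) he)⟩
  exact ⟨h, Nat.sInf_le ⟨by omega, h⟩⟩

end Pool.Agent.Results.MP_dc7d7b_co.TwelveSevenths
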